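import Pool.Agent.H27.KC.AutB

/-!
# Module ALG of MP_64e65e_gt: automorphisms of `{z ≠ 0}` are uniform limits of `(entire) / z ^ N`
-/

open Set Metric Filter Topology
open scoped ContDiff

noncomputable section

namespace Pool.Agent.H27.KC

open Pool.Agent.H93.KC

section

variable (L : Set E) (hz : L ⊆ Zne)

def zL : C(L, ℂ) := ⟨fun x => x.1.1, by fun_prop⟩
def wL : C(L, ℂ) := ⟨fun x => x.1.2, by fun_prop⟩
def iL : C(L, ℂ) := ⟨fun x => (x.1.1)⁻¹, by
  have h : Continuous fun x : L => x.1.1 := by fun_prop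
  exact h.inv₀ fun x => hz x.2⟩

@[simp] lemma zL_apply (x : L) : zL L x = x.1.1 := rfl
@[simp] lemma wL_apply (x : L) : wL L x = x.1.2 := rfl
@[simp] lemma iL_apply (x : L) : iL L hz x = (x.1.1)⁻¹ := rfl

/-- the polynomials in `z, w, 1/z` -/
def BL : Subalgebra ℂ C(L, ℂ) := Algebra.adjoin ℂ {zL L, wL L, iL L hz}

lemma zL_mem : zL L ∈ BL L hz := Algebra.subset_adjoin (by simp)
lemma wL_mem : wL L ∈ BL L hz := Algebra.subset_adjoin (by simp)
lemma iL_mem : iL L hz ∈ BL L hz := Algebra.subset_adjoin (by simp)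

lemma form {b : C(L, ℂ)} (hb : b ∈ BL L hz) : ∃ N₀ : ℕ, ∀ N ≥ N₀, ∃ P : E → ℂ,
    AnalyticOnNhd ℂ P univ ∧ ∀ x : L, b x = P x / (x.1.1) ^ N := by
  have hfst : AnalyticOnNhd ℂ (fun y : E => y.1) univ := fun x _ => analytic_fst x
  have hsnd : AnalyticOnNhd ℂ (fun y : E => y.2) univ := fun x _ => analytic_snd x
  have hne : ∀ x : L, x.1.1 ≠ 0 := fun x => hz x.2
  induction hb using Algebra.adjoin_induction with
  | mem b hb =>
    rcases hb with rfl | rfl | rfl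
    · refine ⟨0, fun N _ => ⟨fun y => y.1 * y.1 ^ N, hfst.mul (hfst.pow N), fun x => ?_⟩⟩
      have := hne x
      simp only [zL_apply]
      field_simp
    · refine ⟨0, fun N _ => ⟨fun y => y.2 * y.1 ^ N, hsnd.mul (hfst.pow N), fun x => ?_⟩⟩
      have := hne x
      simp only [wL_apply]
      field_simp
    · refine ⟨1, fun N hN => ⟨fun y => y.1 ^ (N - 1), hfst.pow (N - 1), fun x => ?_⟩⟩
      have := hne x
      obtain ⟨M, rfl⟩ : ∃ M, N = M + 1 := ⟨N - 1, by omega⟩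
      simp only [iL_apply, Nat.add_sub_cancel]
      rw [eq_div_iff (pow_ne_zero _ this), pow_succ', ← mul_assoc, inv_mul_cancel₀ this, one_mul]
  | algebraMap c =>
    refine ⟨0, fun N _ => ⟨fun y => c * y.1 ^ N, analyticOnNhd_const.mul (hfst.pow N),
      fun x => ?_⟩⟩
    have := hne x
    show c = _
    field_simp
  | add f g hf hg ihf ihg =>
    obtain ⟨N1, h1⟩ := ihf
    obtain ⟨N2, h2⟩ := ihg
    refine ⟨max N1 N2, fun N hN => ?_⟩
    obtain ⟨P, hP, hP'⟩ := h1 N (le_trans (le_max_left _ _) hN)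
    obtain ⟨Q, hQ, hQ'⟩ := h2 N (le_trans (le_max_right _ _) hN)
    refine ⟨fun y => P y + Q y, hP.add hQ, fun x => ?_⟩
    rw [ContinuousMap.add_apply, hP' x, hQ' x, add_div]
  | mul f g hf hg ihf ihg =>
    obtain ⟨N1, h1⟩ := ihf
    obtain ⟨N2, h2⟩ := ihg
    refine ⟨N1 + N2, fun N hN => ?_⟩
    obtain ⟨P, hP, hP'⟩ := h1 N1 le_rfl
    obtain ⟨Q, hQ, hQ'⟩ := h2 (N - N1) (by omega)
    refine ⟨fun y => P y * Q y, hP.mul hQ, fun x => ?_⟩
    rw [ContinuousMap.mul_apply, hP' x, hQ' x, div_mul_div_comm, ← pow_add]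
    congr 2
    omega

variable [CompactSpace L]

/-- the closure -/
def AL : Subalgebra ℂ C(L, ℂ) := (BL L hz).topologicalClosure

lemma BL_le : BL L hz ≤ AL L hz := Subalgebra.le_topologicalClosure _

lemma AL_closed : IsClosed (AL L hz : Set C(L, ℂ)) := Subalgebra.isClosed_topologicalClosure _

lemma exp_memA {f : C(L, ℂ)} (hf : f ∈ AL L hz) :
    ∃ g ∈ AL L hz, ∀ x : L, g x = Complex.exp (f x) := by
  refine ⟨NormedSpace.exp f, ?_, fun x => ?_⟩
  · have h := NormedSpace.exp_series_hasSum_exp' (𝕂 := ℂ) f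
    refine (AL_closed L hz).mem_of_tendsto h (Eventually.of_forall fun s => ?_)
    exact Subalgebra.sum_mem _ fun n _ => Subalgebra.smul_mem _ (Subalgebra.pow_mem _ hf n) _
  · have h := NormedSpace.exp_series_hasSum_exp' (𝕂 := ℂ) f
    have h2 := h.map (ContinuousMap.evalCLM ℂ x : C(L, ℂ) →L[ℂ] ℂ)
      (ContinuousMap.evalCLM ℂ x : C(L, ℂ) →L[ℂ] ℂ).continuous
    have h3 := NormedSpace.exp_series_hasSum_exp' (𝕂 := ℂ) (f x)
    have h4 : (NormedSpace.exp f) x = NormedSpace.exp (f x) := h2.unique h3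
    rw [h4, Complex.exp_eq_exp_ℂ]

lemma poly_memA {f : C(L, ℂ)} (hf : f ∈ AL L hz) (p : Polynomial ℂ) :
    ∃ g ∈ AL L hz, ∀ x : L, g x = p.eval (f x) := by
  refine ⟨Polynomial.aeval f p, ?_, fun x => ?_⟩
  · have := Subalgebra.aeval_coe (AL L hz) ⟨f, hf⟩ p
    rw [show (Polynomial.aeval f) p = _ from this]
    exact SetLike.coe_mem _
  · exact Polynomial.aeval_continuousMap_apply p f x

end

lemma claim {Φ Ψ : E → E} (h : Aut Φ Ψ) : ∀ (L : Set E) (_ : CompactSpace L) (hz : L ⊆ Zne),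
    ∃ f ∈ AL L hz, ∃ g ∈ AL L hz, ∃ k ∈ AL L hz, ∀ x : L,
      f x = (Φ x).1 ∧ g x = (Φ x).2 ∧ k x = ((Φ x).1)⁻¹ := by
  induction h with
  | zshear p =>
    intro L hL hz
    have hw : wL L ∈ AL L hz := BL_le L hz (wL_mem L hz)
    obtain ⟨a, ha, ha'⟩ := poly_memA L hz hw p
    obtain ⟨e1, he1, he1'⟩ := exp_memA L hz ha
    obtain ⟨e2, he2, he2'⟩ := exp_memA L hz ((AL L hz).neg_mem ha)
    refine ⟨zL L * e1, (AL L hz).mul_mem (BL_le L hz (zL_mem L hz)) he1, wL L, hw,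
      iL L hz * e2, (AL L hz).mul_mem (BL_le L hz (iL_mem L hz)) he2, fun x => ⟨?_, ?_, ?_⟩⟩
    · rw [ContinuousMap.mul_apply, he1', ha']
      rfl
    · rfl
    · rw [ContinuousMap.mul_apply, he2', ContinuousMap.neg_apply, ha', Complex.exp_neg]
      show (x.1.1)⁻¹ * (Complex.exp (p.eval x.1.2))⁻¹ = (x.1.1 * Complex.exp (p.eval x.1.2))⁻¹
      rw [mul_inv]
  | wshear p N =>
    intro L hL hz
    obtain ⟨a, ha, ha'⟩ := poly_memA L hz (BL_le L hz (zL_mem L hz)) p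
    refine ⟨zL L, BL_le L hz (zL_mem L hz), wL L + a * (iL L hz) ^ N,
      (AL L hz).add_mem (BL_le L hz (wL_mem L hz)) ((AL L hz).mul_mem ha
        ((AL L hz).pow_mem (BL_le L hz (iL_mem L hz)) N)),
      iL L hz, BL_le L hz (iL_mem L hz), fun x => ⟨rfl, ?_, rfl⟩⟩
    rw [ContinuousMap.add_apply, ContinuousMap.mul_apply, ContinuousMap.pow_apply, ha']
    show x.1.2 + p.eval x.1.1 * (x.1.1)⁻¹ ^ N = x.1.2 + p.eval x.1.1 / x.1.1 ^ N
    rw [inv_pow, div_eq_mul_inv]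
  | scale c hc =>
    intro L hL hz
    refine ⟨zL L, BL_le L hz (zL_mem L hz), c • wL L,
      (AL L hz).smul_mem (BL_le L hz (wL_mem L hz)) c,
      iL L hz, BL_le L hz (iL_mem L hz), fun x => ⟨rfl, rfl, rfl⟩⟩
  | comp Φ Ψ Φ' Ψ' h h' ih ih' =>
    intro L hL hz
    have hcont : ContinuousOn Φ L := fun x hx =>
      (autB_analytic h x (hz hx)).continuousAt.continuousWithinAt
    have hL2 : IsCompact (Φ '' L) := (isCompact_iff_compactSpace.2 hL).image_of_continuousOn hcont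
    have hL2z : Φ '' L ⊆ Zne := by
      rintro _ ⟨x, hx, rfl⟩
      exact autB_maps h (hz hx)
    have hL2c : CompactSpace (Φ '' L) := isCompact_iff_compactSpace.1 hL2
    obtain ⟨f, hf, g, hg, k, hk, hx⟩ := ih L hL hz
    obtain ⟨f', hf', g', hg', k', hk', hx'⟩ := ih' (Φ '' L) hL2c hL2z
    let ΦL : C(L, Φ '' L) := ⟨fun x => ⟨Φ x, mem_image_of_mem Φ x.2⟩,
      Continuous.subtype_mk hcont.restrict _⟩
    let T : C(Φ '' L, ℂ) →ₐ[ℂ] C(L, ℂ) := ContinuousMap.compRightAlgHom ℂ ℂ ΦL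
    have hT : Continuous T := ContinuousMap.compRightAlgHom_continuous ℂ ℂ ΦL
    have hle : AL (Φ '' L) hL2z ≤ (AL L hz).comap T := by
      refine Subalgebra.topologicalClosure_minimal (s := BL (Φ '' L) hL2z) ?_
        ((AL_closed L hz).preimage hT)
      refine Algebra.adjoin_le ?_
      rintro b (rfl | rfl | rfl)
      · show T (zL (Φ '' L)) ∈ AL L hz
        have e : T (zL (Φ '' L)) = f := ContinuousMap.ext fun x => ((hx x).1).symm
        rw [e]; exact hf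
      · show T (wL (Φ '' L)) ∈ AL L hz
        have e : T (wL (Φ '' L)) = g := ContinuousMap.ext fun x => ((hx x).2.1).symm
        rw [e]; exact hg
      · show T (iL (Φ '' L) hL2z) ∈ AL L hz
        have e : T (iL (Φ '' L) hL2z) = k := ContinuousMap.ext fun x => ((hx x).2.2).symm
        rw [e]; exact hk
    refine ⟨T f', hle hf', T g', hle hg', T k', hle hk', fun x => ?_⟩
    have := hx' (ΦL x)
    exact this

/-- ALG -/
theorem alg : T_ALG := by
  intro Φ Ψ h L hL hz ε hε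
  have hLc : CompactSpace L := isCompact_iff_compactSpace.1 hL
  obtain ⟨f, hf, g, hg, k, hk, hx⟩ := claim h L hLc hz
  have key : ∀ f ∈ AL L hz, ∃ b ∈ BL L hz, ∀ x : L, ‖f x - b x‖ < ε := by
    intro f hf
    have h1 : f ∈ closure (BL L hz : Set C(L, ℂ)) := hf
    obtain ⟨b, hb, hd⟩ := Metric.mem_closure_iff.1 h1 ε hε
    refine ⟨b, hb, fun x => ?_⟩
    have := ContinuousMap.dist_apply_le_dist (f := f) (g := b) x
    rw [dist_eq_norm] at this
    exact lt_of_le_of_lt this hd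
  obtain ⟨b1, hb1, h1⟩ := key f hf
  obtain ⟨b2, hb2, h2⟩ := key g hg
  obtain ⟨N1, hN1⟩ := form L hz hb1
  obtain ⟨N2, hN2⟩ := form L hz hb2
  obtain ⟨P, hP, hP'⟩ := hN1 (max N1 N2) (le_max_left _ _)
  obtain ⟨Q, hQ, hQ'⟩ := hN2 (max N1 N2) (le_max_right _ _)
  refine ⟨P, Q, max N1 N2, hP, hQ, fun x hxL => ⟨?_, ?_⟩⟩
  · have a := h1 ⟨x, hxL⟩
    rw [(hx ⟨x, hxL⟩).1, hP'] at a
    exact a
  · have a := h2 ⟨x, hxL⟩
    rw [(hx ⟨x, hxL⟩).2.1, hQ'] at a
    exact a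

end Pool.Agent.H27.KC
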