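import Pool.Agent.H93.KC.Targets

/-!
# Module AUTB of MP_64e65e_gt: automorphisms of `{z ≠ 0}`
-/

open Set Metric Filter Topology
open scoped ContDiff

noncomputable section

namespace Pool.Agent.H27.KC

open Pool.Agent.H93.KC

lemma analytic_polyEval (p : Polynomial ℂ) (f : E → ℂ) (x : E) (hf : AnalyticAt ℂ f x) :
    AnalyticAt ℂ (fun y => p.eval (f y)) x := by
  induction p using Polynomial.induction_on' with
  | add p q hp hq =>
    have h := hp.add hq
    refine h.congr (Filter.Eventually.of_forall fun y => ?_)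
    simp
  | monomial n a =>
    have h : AnalyticAt ℂ (fun y => a * (f y) ^ n) x := analyticAt_const.mul (hf.pow n)
    refine h.congr (Filter.Eventually.of_forall fun y => ?_)
    simp

lemma analytic_fst (x : E) : AnalyticAt ℂ (fun y : E => y.1) x := analyticAt_fst
lemma analytic_snd (x : E) : AnalyticAt ℂ (fun y : E => y.2) x := analyticAt_snd

lemma autB_symm {Φ Ψ : E → E} (h : Aut Φ Ψ) : Aut Ψ Φ := by
  induction h with
  | zshear p =>
    have := Aut.zshear (-p)
    simpa using this
  | wshear p N =>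
    have h1 := Aut.wshear (-p) N
    have e1 : (fun x : E => (x.1, x.2 + (-p).eval x.1 / x.1 ^ N))
        = (fun x : E => (x.1, x.2 - p.eval x.1 / x.1 ^ N)) := by
      funext x
      simp [Polynomial.eval_neg, neg_div, sub_eq_add_neg]
    have e2 : (fun x : E => (x.1, x.2 - (-p).eval x.1 / x.1 ^ N))
        = (fun x : E => (x.1, x.2 + p.eval x.1 / x.1 ^ N)) := by
      funext x
      simp [Polynomial.eval_neg, neg_div]
    rw [e1, e2] at h1
    exact h1
  | scale c hc =>
    have h1 := Aut.scale c⁻¹ (inv_ne_zero hc)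
    simpa using h1
  | comp Φ Ψ Φ' Ψ' h h' ih ih' =>
    exact Aut.comp Ψ' Φ' Ψ Φ ih' ih

lemma autB_maps {Φ Ψ : E → E} (h : Aut Φ Ψ) : MapsTo Φ Zne Zne := by
  induction h with
  | zshear p =>
    intro x hx
    exact mul_ne_zero hx (Complex.exp_ne_zero _)
  | wshear p N => intro x hx; exact hx
  | scale c hc => intro x hx; exact hx
  | comp Φ Ψ Φ' Ψ' h h' ih ih' => exact ih'.comp ih

lemma autB_inv {Φ Ψ : E → E} (h : Aut Φ Ψ) : ∀ x ∈ Zne, Ψ (Φ x) = x := by
  induction h with
  | zshear p =>
    intro x hx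
    refine Prod.ext ?_ rfl
    show x.1 * Complex.exp (p.eval x.2) * Complex.exp (-p.eval x.2) = x.1
    rw [mul_assoc, ← Complex.exp_add, add_neg_cancel, Complex.exp_zero, mul_one]
  | wshear p N =>
    intro x hx
    refine Prod.ext rfl ?_
    show x.2 + p.eval x.1 / x.1 ^ N - p.eval x.1 / x.1 ^ N = x.2
    ring
  | scale c hc =>
    intro x hx
    refine Prod.ext rfl ?_
    show c⁻¹ * (c * x.2) = x.2
    rw [← mul_assoc, inv_mul_cancel₀ hc, one_mul]
  | comp Φ Ψ Φ' Ψ' h h' ih ih' =>
    intro x hx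
    show Ψ (Ψ' (Φ' (Φ x))) = x
    rw [ih' (Φ x) (autB_maps h hx), ih x hx]

lemma autB_analytic {Φ Ψ : E → E} (h : Aut Φ Ψ) : AnalyticOnNhd ℂ Φ Zne := by
  induction h with
  | zshear p =>
    intro x hx
    refine AnalyticAt.prod ?_ (analytic_snd x)
    exact (analytic_fst x).mul (analytic_polyEval p _ x (analytic_snd x)).cexp
  | wshear p N =>
    intro x hx
    refine AnalyticAt.prod (analytic_fst x) ?_
    exact (analytic_snd x).add ((analytic_polyEval p _ x (analytic_fst x)).div
      ((analytic_fst x).pow N) (pow_ne_zero N hx))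
  | scale c hc =>
    intro x hx
    refine AnalyticAt.prod (analytic_fst x) ?_
    exact analyticAt_const.mul (analytic_snd x)
  | comp Φ Ψ Φ' Ψ' h h' ih ih' =>
    exact ih'.comp ih (autB_maps h)

/-- AUTB -/
theorem autb : T_AUTB := by
  intro Φ Ψ h
  have h' := autB_symm h
  exact ⟨h', autB_maps h, autB_maps h', autB_inv h, autB_inv h', autB_analytic h, autB_analytic h'⟩

end Pool.Agent.H27.KC
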