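import Pool.Agent.H27.KC.AutB

/-!
# Module AUTX of MP_64e65e_gt: automorphisms agree near compact sets with global diffeomorphisms
-/

open Set Metric Filter Topology
open scoped ContDiff

noncomputable section

namespace Pool.Agent.H27.KC

open Pool.Agent.H93.KC

lemma smooth_of_analytic {F : Type*} [NormedAddCommGroup F] [NormedSpace ℂ F]
    {G : Type*} [NormedAddCommGroup G] [NormedSpace ℂ G] [CompleteSpace G]
    {f : F → G} {x : F} (h : AnalyticAt ℂ f x) : ContDiffAt ℝ ∞ f x := by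
  have h1 : ContDiffAt ℂ ∞ f x := h.contDiffAt
  exact h1.restrict_scalars ℝ

/-- the cut off quotient -/
lemma cutoff (p : Polynomial ℂ) (N : ℕ) (d : ℝ) (hd : 0 < d) :
    ∃ g : ℂ → ℂ, ContDiff ℝ ∞ g ∧ ∀ z, d < ‖z‖ → g z = p.eval z / z ^ N := by
  let χ : ContDiffBump (0 : ℂ) := ⟨d / 2, d, by positivity, by linarith⟩
  refine ⟨fun z => ((1 - χ z : ℝ) : ℂ) * (p.eval z / z ^ N), ?_, ?_⟩
  · rw [contDiff_iff_contDiffAt]
    intro z
    by_cases hz : z = 0
    · subst hz
      have h0 : (fun z : ℂ => ((1 - χ z : ℝ) : ℂ) * (p.eval z / z ^ N)) =ᶠ[𝓝 0] fun _ => 0 := by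
        have : closedBall (0 : ℂ) (d / 2) ∈ 𝓝 (0 : ℂ) := closedBall_mem_nhds _ (by positivity)
        filter_upwards [this] with z hz
        rw [χ.one_of_mem_closedBall hz]
        simp
      exact contDiffAt_const.congr_of_eventuallyEq h0
    · have h1 : ContDiffAt ℝ ∞ (fun z : ℂ => ((1 - χ z : ℝ) : ℂ)) z := by
        have h2 : ContDiffAt ℝ ∞ (fun z : ℂ => (1 - χ z : ℝ)) z :=
          contDiffAt_const.sub χ.contDiffAt
        exact (Complex.ofRealCLM.contDiff.contDiffAt).comp z h2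
      refine h1.mul ?_
      have h3 : AnalyticAt ℂ (fun z : ℂ => p.eval z / z ^ N) z := by
        refine AnalyticAt.div ?_ (analyticAt_id.pow N) (pow_ne_zero N hz)
        have := analyticAt_id (𝕜 := ℂ) (z := z)
        have h4 : AnalyticAt ℂ (fun z : ℂ => Polynomial.aeval z p) z := by
          simpa using AnalyticAt.aeval_polynomial (this) p
        simpa using h4
      exact smooth_of_analytic h3
  · intro z hz
    have : χ z = 0 := χ.zero_of_le_dist (by simpa using hz.le)
    simp only [this]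
    simp

lemma lower_bound {L : Set E} (hL : IsCompact L) (hLz : L ⊆ Zne) :
    ∃ d > 0, ∀ x ∈ L, d < ‖x.1‖ := by
  rcases L.eq_empty_or_nonempty with rfl | hne
  · exact ⟨1, one_pos, by simp⟩
  · obtain ⟨x₀, hx₀, hmin⟩ := hL.exists_isMinOn hne
      (continuous_fst.norm.continuousOn (s := L) : ContinuousOn (fun x : E => ‖x.1‖) L)
    have h0 : 0 < ‖x₀.1‖ := norm_pos_iff.2 (hLz hx₀)
    refine ⟨‖x₀.1‖ / 2, by positivity, fun x hx => ?_⟩
    have : ‖x₀.1‖ ≤ ‖x.1‖ := hmin hx
    linarith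

/-- AUTX -/
theorem autx : T_AUTX := by
  intro Φ Ψ h
  induction h with
  | zshear p =>
    intro L hL hLz
    have hA : ∀ (p : Polynomial ℂ), ContDiff ℝ ∞ (fun x : E => (x.1 * Complex.exp (p.eval x.2), x.2)) := by
      intro p
      rw [contDiff_iff_contDiffAt]
      intro x
      refine smooth_of_analytic ?_
      refine AnalyticAt.prod ?_ (analytic_snd x)
      exact (analytic_fst x).mul (analytic_polyEval p _ x (analytic_snd x)).cexp
    refine ⟨_, _, hA p, hA (-p), ?_, ?_, Filter.Eventually.of_forall fun x => rfl⟩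
    · intro x
      refine Prod.ext ?_ rfl
      show x.1 * Complex.exp (p.eval x.2) * Complex.exp ((-p).eval x.2) = x.1
      rw [mul_assoc, ← Complex.exp_add, Polynomial.eval_neg, add_neg_cancel, Complex.exp_zero,
        mul_one]
    · intro x
      refine Prod.ext ?_ rfl
      show x.1 * Complex.exp ((-p).eval x.2) * Complex.exp (p.eval x.2) = x.1
      rw [mul_assoc, ← Complex.exp_add, Polynomial.eval_neg, neg_add_cancel, Complex.exp_zero,
        mul_one]
  | wshear p N =>
    intro L hL hLz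
    obtain ⟨d, hd, hL'⟩ := lower_bound hL hLz
    obtain ⟨g, hg, hgz⟩ := cutoff p N d hd
    have hg1 : ContDiff ℝ ∞ (fun x : E => g x.1) := hg.comp contDiff_fst
    refine ⟨fun x => (x.1, x.2 + g x.1), fun x => (x.1, x.2 - g x.1),
      contDiff_fst.prodMk (contDiff_snd.add hg1), contDiff_fst.prodMk (contDiff_snd.sub hg1),
      ?_, ?_, ?_⟩
    · intro x
      exact Prod.ext rfl (by show x.2 + g x.1 - g x.1 = x.2; ring)
    · intro x
      exact Prod.ext rfl (by show x.2 - g x.1 + g x.1 = x.2; ring)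
    · have hO : IsOpen {x : E | d < ‖x.1‖} := isOpen_lt continuous_const continuous_fst.norm
      have hm : {x : E | d < ‖x.1‖} ∈ 𝓝ˢ L := hO.mem_nhdsSet.2 hL'
      filter_upwards [hm] with x hx
      refine Prod.ext rfl ?_
      show x.2 + g x.1 = x.2 + p.eval x.1 / x.1 ^ N
      rw [hgz x.1 hx]
  | scale c hc =>
    intro L hL hLz
    have hA : ∀ c : ℂ, ContDiff ℝ ∞ (fun x : E => (x.1, c * x.2)) := by
      intro c
      exact contDiff_fst.prodMk (contDiff_const.mul contDiff_snd)
    refine ⟨_, _, hA c, hA c⁻¹, ?_, ?_, Filter.Eventually.of_forall fun x => rfl⟩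
    · intro x
      refine Prod.ext rfl ?_
      show c⁻¹ * (c * x.2) = x.2
      rw [← mul_assoc, inv_mul_cancel₀ hc, one_mul]
    · intro x
      refine Prod.ext rfl ?_
      show c * (c⁻¹ * x.2) = x.2
      rw [← mul_assoc, mul_inv_cancel₀ hc, one_mul]
  | comp Φ Ψ Φ' Ψ' h h' ih ih' =>
    intro L hL hLz
    have hcont : ∀ x ∈ L, ContinuousAt Φ x := fun x hx => (autB_analytic h x (hLz hx)).continuousAt
    have hL2 : IsCompact (Φ '' L) :=
      hL.image_of_continuousOn fun x hx => (hcont x hx).continuousWithinAt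
    have hL2z : Φ '' L ⊆ Zne := by
      rintro _ ⟨x, hx, rfl⟩
      exact autB_maps h (hLz hx)
    obtain ⟨F1, G1, hF1, hG1, hGF1, hFG1, he1⟩ := ih L hL hLz
    obtain ⟨F2, G2, hF2, hG2, hGF2, hFG2, he2⟩ := ih' _ hL2 hL2z
    refine ⟨F2 ∘ F1, G1 ∘ G2, hF2.comp hF1, hG1.comp hG2, ?_, ?_, ?_⟩
    · intro x
      show G1 (G2 (F2 (F1 x))) = x
      rw [hGF2, hGF1]
    · intro x
      show F2 (F1 (G1 (G2 x))) = x
      rw [hFG1, hFG2]
    · rw [eventually_nhdsSet_iff_forall] at he1 he2 ⊢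
      intro x hx
      have h1 := he1 x hx
      have h2 := (hcont x hx).eventually (he2 (Φ x) (mem_image_of_mem Φ hx))
      filter_upwards [h1, h2] with y hy1 hy2
      show F2 (F1 y) = Φ' (Φ y)
      rw [hy1, hy2]

end Pool.Agent.H27.KC
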